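import Pool.Agent.Helper88.QT.St1
import Pool.Agent.Helper85.QT.St1

/-!
# Project QT: module ENT (the foot of an entry point is near the endpoint)
-/

set_option autoImplicit false

open MeasureTheory Matrix Set Topology
open scoped ENNReal ComplexConjugate

namespace Pool.Agent.Helper6.QT

open Pool.Agent.Helper88.QT Pool.Agent.Helper85.QT Pool.Agent.Helper86.QA

private theorem ENT_one (hFDM : Pool.Agent.Helper88.QT.StFDM)
    (hGPT : Pool.Agent.Helper88.QT.StGPT) (lam a b : ℂ) (u : ℝ) (hlam : lam ≠ 0) (ha : a ≠ 0)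
    (hb : b ≠ 0) (hab : a ≠ b) (hT : ‖lam‖ * TT lam (gp a b u) ≤ 1 / 16)
    (h : ‖a‖ * Real.exp (2 * u) ≤ ‖b‖) :
    fd lam (rd (gp a b u)) b ≤ 8 * TT lam (gp a b u) := by
  have hl0 : 0 < ‖lam‖ := norm_pos_iff.2 hlam
  have hb0 : 0 < ‖b‖ := norm_pos_iff.2 hb
  have hab0 : 0 < ‖a - b‖ := norm_pos_iff.2 (sub_ne_zero.2 hab)
  set x : Pt := gp a b u with hx
  set E : ℝ := Real.exp u with hE
  have hE0 : 0 < E := Real.exp_pos u
  have hEi : Real.exp (-u) = E⁻¹ := Real.exp_neg u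
  have hE2 : Real.exp (2 * u) = E ^ 2 := by
    rw [hE, ← Real.exp_nat_mul]
    norm_num
  have hE2i : Real.exp (-(2 * u)) = (E ^ 2)⁻¹ := by
    rw [Real.exp_neg, hE2]
  have hS0 : 0 < E + E⁻¹ := by positivity
  have hx1 : x.1 = ((E : ℂ) * a + ((E⁻¹ : ℝ) : ℂ) * b) / ((E + E⁻¹ : ℝ) : ℂ) := by
    rw [hx]
    unfold gp
    rw [hEi]
  have hx2 : x.2 = ‖a - b‖ / (E + E⁻¹) := by
    rw [hx]
    unfold gp
    rw [hEi]
  have ht0 : 0 < x.2 := by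
    rw [hx2]
    positivity
  have hN0 : 0 < NN x := by
    unfold NN
    positivity
  set δ : ℝ := ‖lam‖ * TT lam x with hδ
  have hδ1 : δ = x.2 / Real.sqrt (NN x) := by
    rw [hδ]
    unfold TT
    field_simp
  have hsN : 0 < Real.sqrt (NN x) := Real.sqrt_pos.2 hN0
  have hδ0 : 0 < δ := by
    rw [hδ1]
    positivity
  have hsq : Real.sqrt (NN x) ^ 2 = NN x := Real.sq_sqrt hN0.le
  have ht : x.2 = δ * Real.sqrt (NN x) := by
    rw [hδ1]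
    field_simp
  have hz2 : ‖x.1‖ ^ 2 = NN x * (1 - δ ^ 2) := by
    have h1 : NN x = ‖x.1‖ ^ 2 + x.2 ^ 2 := rfl
    have h2 : x.2 ^ 2 = δ ^ 2 * NN x := by
      rw [ht, mul_pow, hsq]
    linarith
  have hδ2 : δ ^ 2 ≤ 1 / 256 := by
    have : δ ^ 2 ≤ (1 / 16) ^ 2 := pow_le_pow_left₀ hδ0.le hT 2
    linarith
  have hz0 : 0 < ‖x.1‖ := by
    have h1 : 0 < ‖x.1‖ ^ 2 := by
      rw [hz2]
      refine mul_pos hN0 ?_
      linarith
    refine lt_of_le_of_ne (norm_nonneg _) (fun h0 => ?_)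
    rw [← h0] at h1
    norm_num at h1
  -- distance of `x.1` to `b`
  have hzb : x.1 - b = (E : ℂ) * (a - b) / ((E + E⁻¹ : ℝ) : ℂ) := by
    rw [hx1]
    have h1 : ((E + E⁻¹ : ℝ) : ℂ) ≠ 0 := by exact_mod_cast hS0.ne'
    have h2 : ((E + E⁻¹ : ℝ) : ℂ) = (E : ℂ) + ((E⁻¹ : ℝ) : ℂ) := by push_cast; ring
    rw [eq_div_iff h1, sub_mul, div_mul_cancel₀ _ h1, h2]
    ring
  have hzbn : ‖x.1 - b‖ = E * ‖a - b‖ / (E + E⁻¹) := by
    rw [hzb, norm_div, norm_mul, Complex.norm_real, Complex.norm_real, Real.norm_eq_abs,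
      Real.norm_eq_abs, abs_of_pos hE0, abs_of_pos hS0]
  have hG := (hGPT lam a b hlam ha hb hab).1 u
  rw [← hx, ← hδ, hE2, hE2i] at hG
  have hl2 : ‖a - b‖ ^ 2 =
      δ ^ 2 * (‖a‖ ^ 2 * E ^ 2 + ‖b‖ ^ 2 * (E ^ 2)⁻¹ + ‖a‖ ^ 2 + ‖b‖ ^ 2) := by
    have h1 : δ ^ 2 ≠ 0 := by positivity
    have h2 : ‖a - b‖ ^ 2 ≠ 0 := by positivity
    rw [div_eq_div_iff h1 h2, one_mul] at hG
    rw [hG]
    ring
  have hzb2 : ‖x.1 - b‖ ^ 2 ≤ (δ * ‖b‖) ^ 2 := by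
    have h1 : ‖x.1 - b‖ ^ 2 = δ ^ 2 * ((E ^ 4 * ‖a‖ ^ 2 + E ^ 2 * ‖b‖ ^ 2) / (E ^ 2 + 1)) := by
      rw [hzbn, div_pow, mul_pow, hl2]
      field_simp
      ring
    have h2 : E ^ 4 * ‖a‖ ^ 2 ≤ ‖b‖ ^ 2 := by
      rw [hE2] at h
      have h3 := pow_le_pow_left₀ (by positivity) h 2
      calc E ^ 4 * ‖a‖ ^ 2 = (‖a‖ * E ^ 2) ^ 2 := by ring
        _ ≤ ‖b‖ ^ 2 := h3
    have h4 : (E ^ 4 * ‖a‖ ^ 2 + E ^ 2 * ‖b‖ ^ 2) / (E ^ 2 + 1) ≤ ‖b‖ ^ 2 := by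
      rw [div_le_iff₀ (by positivity)]
      linarith
    have h5 : 0 ≤ δ ^ 2 := sq_nonneg δ
    calc ‖x.1 - b‖ ^ 2 = δ ^ 2 * ((E ^ 4 * ‖a‖ ^ 2 + E ^ 2 * ‖b‖ ^ 2) / (E ^ 2 + 1)) := h1
      _ ≤ δ ^ 2 * ‖b‖ ^ 2 := mul_le_mul_of_nonneg_left h4 h5
      _ = (δ * ‖b‖) ^ 2 := (mul_pow _ _ _).symm
  have hzb3 : ‖x.1 - b‖ ≤ δ * ‖b‖ :=
    (pow_le_pow_iff_left₀ (norm_nonneg _) (by positivity) two_ne_zero).1 hzb2
  have hzle : ‖x.1‖ ≤ (1 + δ) * ‖b‖ := by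
    have h1 : ‖x.1‖ ≤ ‖x.1 - b‖ + ‖b‖ := by
      have := norm_add_le (x.1 - b) b
      rwa [sub_add_cancel] at this
    linarith
  -- the factor
  set c : ℝ := Real.sqrt (NN x) / ‖x.1‖ with hc
  have hc0 : 0 < c := by
    rw [hc]
    positivity
  have hc2 : c ^ 2 * (1 - δ ^ 2) = 1 := by
    rw [hc, div_pow, hsq, hz2]
    have h1 : (1 - δ ^ 2) ≠ 0 := by
      have : 0 < 1 - δ ^ 2 := by linarith
      exact this.ne'
    field_simp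
  have hc1 : 1 ≤ c := by
    by_contra hcon
    have h1 : c < 1 := not_le.1 hcon
    have h2 : c ^ 2 < 1 := by nlinarith
    have h3 : 0 < δ ^ 2 := by positivity
    nlinarith
  have hcle : c ≤ 1 + δ ^ 2 := by
    have h3 : 0 < δ ^ 2 := by positivity
    have h1 : c ^ 2 ≤ (1 + δ ^ 2) ^ 2 := by
      have h2 : 0 < 1 - δ ^ 2 := by linarith
      refine le_of_mul_le_mul_right ?_ h2
      rw [hc2]
      nlinarith [mul_pos h3 h3, mul_pos (mul_pos h3 h3) h3]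
    exact (pow_le_pow_iff_left₀ hc0.le (by positivity) two_ne_zero).1 h1
  have hrd : rd x = x.1 * (c : ℂ) := rfl
  have hdist : ‖rd x / b - 1‖ ≤ 2 * δ := by
    have h1 : rd x / b - 1 = (x.1 - b + x.1 * ((c - 1 : ℝ) : ℂ)) / b := by
      rw [hrd, div_sub_one hb]
      congr 1
      push_cast
      ring
    rw [h1, norm_div, div_le_iff₀ hb0]
    have h2 : ‖x.1 * ((c - 1 : ℝ) : ℂ)‖ = ‖x.1‖ * (c - 1) := by
      rw [norm_mul, Complex.norm_real, Real.norm_eq_abs, abs_of_nonneg (by linarith)]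
    have h3 := norm_add_le (x.1 - b) (x.1 * ((c - 1 : ℝ) : ℂ))
    rw [h2] at h3
    have h4 : ‖x.1‖ * (c - 1) ≤ ((1 + δ) * ‖b‖) * δ ^ 2 :=
      mul_le_mul hzle (by linarith) (by linarith) (by positivity)
    have h5 : ((1 + δ) * ‖b‖) * δ ^ 2 ≤ δ * ‖b‖ := by
      have h6 : (1 + δ) * δ ≤ 1 := by nlinarith
      calc ((1 + δ) * ‖b‖) * δ ^ 2 = ((1 + δ) * δ) * (δ * ‖b‖) := by ring
        _ ≤ 1 * (δ * ‖b‖) := mul_le_mul_of_nonneg_right h6 (by positivity)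
        _ = δ * ‖b‖ := one_mul _
    linarith
  have h6 := (hFDM lam hlam).2.2.2.2.2 (rd x) b hb (by linarith)
  have h7 : ‖lam‖ * fd lam (rd x) b ≤ ‖lam‖ * (8 * TT lam x) := by
    have h8 : ‖lam‖ * (8 * TT lam x) = 8 * δ := by
      rw [hδ]
      ring
    rw [h8]
    linarith
  exact le_of_mul_le_mul_left h7 hl0

theorem hENT (hFDM : Pool.Agent.Helper88.QT.StFDM) (_hXPT : Pool.Agent.Helper88.QT.StXPT)
    (hGPM : Pool.Agent.Helper88.QT.StGPM) (hGPT : Pool.Agent.Helper88.QT.StGPT) :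
    Pool.Agent.Helper88.QT.StENT := by
  intro lam a b u hlam ha hb hab hT
  refine ⟨fun h => ENT_one hFDM hGPT lam a b u hlam ha hb hab hT h, fun h => ?_⟩
  have h1 : gp a b u = gp b a (-u) := (hGPM.1 a b u 0 hab).2.2
  rw [h1] at hT ⊢
  refine ENT_one hFDM hGPT lam b a (-u) hlam hb ha (Ne.symm hab) hT ?_
  rw [mul_neg]
  exact h

end Pool.Agent.Helper6.QT
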